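import Pool.Agent.KS6_51.CH9
import Pool.Agent.KS6_51.Rom

/-!
# Decompositions `n = k + m` at primes with Chen's property

`n = k + m` is admissible if `6 k - 1` and `p_m` both are the lower members of twin prime pairs. Here `twin prime` is
replaced by the property of Chen's theorem: the prime `q` is such that `q + 2` is a prime or a product of two primes,
all larger than `q ^ (1 / 10)`. For at least `c X / (log log log log X)²` of the integers `n` in `(X, 3 X]` there is such a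
decomposition, even with `m ≤ A (log X)² log log X`, and this is the best possible order of magnitude of `m` (`m > c (log X)² log log X`
in all the admissible decompositions of almost all `n`, by an earlier result).

Proof. The lower bound of Chen's theorem with the correct order of magnitude (`Pool.Agent.KS6_51.CH.chen`) for the `k` and for
the `p_m`, the upper bound sieve for the pairs `k`, `k + h` (starting files, `Pool.Agent.TH685.TI`) and the inequality of Cauchy.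
-/

set_option autoImplicit false

namespace Pool.Agent.Results.MP_ea8352_nt.ChenDecompositions

open Finset Filter Pool.Agent.KS6_51.CH Pool.Agent.KS6_51.Rom
open Pool.Agent.Results.MP_3509fd_nt.NeighboursOfAlmostMissing (AlmostMissing)

/-- `q` is a prime and `q + 2` is a prime or a product of two primes, each of them, `p` say, with `p ^ 10 > q`. -/
def ChenPrime (q : ℕ) : Prop :=
  q.Prime ∧ (q + 2).primeFactorsList.length ≤ 2 ∧ ∀ p : ℕ, p.Prime → p ∣ q + 2 → q < p ^ 10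

theorem chen2 : ∃ (δ c : ℝ) (X₀ : ℕ), 0 < δ ∧ 0 < c ∧ ∀ X : ℕ, X₀ ≤ X →
    c * (X / Real.log X ^ 2) ≤ ((Good X 0 2 δ (fun _ => ∅)).card : ℝ) := by
  obtain ⟨z₀, hz₀⟩ := chen 0 0 2 (by norm_num)
  obtain ⟨δ, c, X₀, hδ, hc, h⟩ := hz₀ z₀ le_rfl
  refine ⟨δ, c, X₀, hδ, hc, fun X hX => ?_⟩
  apply h X hX (fun _ => ∅)
  · intro p _ _
    simp
  · intro p hp _
    by_cases h3 : p = 3
    · subst h3
      exact ⟨2, by simp, by norm_num, by norm_num⟩
    · refine ⟨1, by simp, ?_, ?_⟩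
      · intro hd
        exact hp.one_lt.ne' (Nat.dvd_one.1 hd)
      · intro hd
        exact h3 ((Nat.prime_dvd_prime_iff_eq hp (by norm_num)).1 hd)

theorem mem_Good2 {X n : ℕ} {δ : ℝ} (h : n ∈ Good X 0 2 δ (fun _ => ∅)) :
    (X < n ∧ n ≤ 2 * X) ∧ n.Prime ∧ (n + 2).primeFactorsList.length ≤ 2 ∧
    ∀ p : ℕ, p.Prime → p ∣ n + 2 → (X : ℝ) ^ (1 / 9 : ℝ) ≤ p := by
  classical
  unfold Good at h
  rw [mem_filter, mem_Ioc] at h
  exact ⟨h.1, h.2.1, h.2.2.1, h.2.2.2.1⟩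

theorem pow_ten {X q p : ℕ} (hX : 2 ^ 18 ≤ X) (hq : q ≤ 2 * X)
    (h : (X : ℝ) ^ (1 / 9 : ℝ) ≤ p) : q < p ^ 10 := by
  have hXr : (2 : ℝ) ^ 18 ≤ X := by exact_mod_cast hX
  have hX0 : (0 : ℝ) < X := by linarith [show (0 : ℝ) < 2 ^ 18 by norm_num]
  have h1 : ((X : ℝ) ^ (1 / 9 : ℝ)) ^ 10 ≤ (p : ℝ) ^ 10 := pow_le_pow_left₀ (by positivity) h 10
  have h2 : ((X : ℝ) ^ (1 / 9 : ℝ)) ^ 10 = X * (X : ℝ) ^ (1 / 9 : ℝ) := by
    rw [← Real.rpow_natCast, ← Real.rpow_mul hX0.le]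
    nth_rewrite 2 [← Real.rpow_one (X : ℝ)]
    rw [← Real.rpow_add hX0]
    norm_num
  have h3 : (4 : ℝ) ≤ (X : ℝ) ^ (1 / 9 : ℝ) := by
    have e : (4 : ℝ) = ((2 : ℝ) ^ 18) ^ (1 / 9 : ℝ) := by
      rw [← Real.rpow_natCast, ← Real.rpow_mul (by norm_num)]
      norm_num
    rw [e]
    exact Real.rpow_le_rpow (by norm_num) hXr (by norm_num)
  have h4 : (q : ℝ) < (p : ℝ) ^ 10 := by
    have hq' : (q : ℝ) ≤ 2 * X := by exact_mod_cast hq
    calc (q : ℝ) ≤ 2 * X := hq'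
      _ < X * 4 := by linarith
      _ ≤ X * (X : ℝ) ^ (1 / 9 : ℝ) := mul_le_mul_of_nonneg_left h3 hX0.le
      _ = ((X : ℝ) ^ (1 / 9 : ℝ)) ^ 10 := h2.symm
      _ ≤ _ := h1
  exact_mod_cast h4

open Classical in
/-- the first summands -/
noncomputable def Kf (X : ℕ) : Finset ℕ := (Ioc X (2 * X)).filter (fun k => (6 * k - 1).Prime ∧
  (6 * k + 1).primeFactorsList.length ≤ 2 ∧
  ∀ p : ℕ, p.Prime → p ∣ 6 * k + 1 → ((6 * X : ℕ) : ℝ) ^ (1 / 9 : ℝ) ≤ p)

theorem mem_Kf {X k : ℕ} : k ∈ Kf X ↔ (X < k ∧ k ≤ 2 * X) ∧ (6 * k - 1).Prime ∧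
    (6 * k + 1).primeFactorsList.length ≤ 2 ∧
    ∀ p : ℕ, p.Prime → p ∣ 6 * k + 1 → ((6 * X : ℕ) : ℝ) ^ (1 / 9 : ℝ) ≤ p := by
  classical
  unfold Kf
  rw [mem_filter, mem_Ioc]

theorem Kf_almost (r : ℕ) (hr : 9 ≤ r) (X k : ℕ) (hk : k ∈ Kf X) :
    (X < k ∧ k ≤ 2 * X) ∧ AlmostMissing r X k := by
  rw [mem_Kf] at hk
  obtain ⟨h1, h2, h3, h4⟩ := hk
  refine ⟨h1, h2, by omega, fun p hp hd => ?_⟩
  have hX1 : 1 ≤ X := by omega
  have hXr : (1 : ℝ) ≤ X := by exact_mod_cast hX1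
  have hrr : (9 : ℝ) ≤ r := by exact_mod_cast hr
  have h5 : (X : ℝ) ^ (1 / (r : ℝ)) ≤ (X : ℝ) ^ (1 / 9 : ℝ) :=
    Real.rpow_le_rpow_of_exponent_le hXr (one_div_le_one_div_of_le (by norm_num) hrr)
  have h6 : (X : ℝ) ^ (1 / 9 : ℝ) < ((6 * X : ℕ) : ℝ) ^ (1 / 9 : ℝ) := by
    apply Real.rpow_lt_rpow (by positivity) _ (by norm_num)
    exact_mod_cast (by omega : X < 6 * X)
  linarith [h4 p hp hd]

theorem Kf_many : ∃ κ : ℝ, 0 < κ ∧ ∀ᶠ X : ℕ in atTop, κ * X / Real.log X ^ 2 ≤ ((Kf X).card : ℝ) := by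
  classical
  obtain ⟨δ, c, X₀, hδ, hc, h⟩ := chen2
  refine ⟨6 * c / 4, by positivity, ?_⟩
  filter_upwards [eventually_ge_atTop (max X₀ (2 ^ 18))] with X hX
  rw [max_le_iff] at hX
  obtain ⟨hX0, hX18⟩ := hX
  have hXr : (2 : ℝ) ^ 18 ≤ X := by exact_mod_cast hX18
  have hX1 : (6 : ℝ) ≤ X := by linarith [show (6 : ℝ) ≤ 2 ^ 18 by norm_num]
  have key := h (6 * X) (by omega)
  have hlX : 0 < Real.log X := Real.log_pos (by linarith)
  have hl6 : Real.log ((6 * X : ℕ) : ℝ) ≤ 2 * Real.log X := by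
    push_cast
    rw [Real.log_mul (by norm_num) (by linarith)]
    have : Real.log 6 ≤ Real.log X := Real.log_le_log (by norm_num) hX1
    linarith
  have hl60 : 0 < Real.log ((6 * X : ℕ) : ℝ) := by
    apply Real.log_pos
    push_cast
    linarith
  have h1 : 6 * c / 4 * X / Real.log X ^ 2 ≤ c * (((6 * X : ℕ) : ℝ) / Real.log ((6 * X : ℕ) : ℝ) ^ 2) := by
    have h2 : Real.log ((6 * X : ℕ) : ℝ) ^ 2 ≤ (2 * Real.log X) ^ 2 := pow_le_pow_left₀ hl60.le hl6 2
    have h3 : ((6 * X : ℕ) : ℝ) / (2 * Real.log X) ^ 2 ≤ ((6 * X : ℕ) : ℝ) / Real.log ((6 * X : ℕ) : ℝ) ^ 2 :=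
      div_le_div_of_nonneg_left (by positivity) (by positivity) h2
    calc 6 * c / 4 * X / Real.log X ^ 2 = c * (((6 * X : ℕ) : ℝ) / (2 * Real.log X) ^ 2) := by
          push_cast
          field_simp
          ring
      _ ≤ _ := mul_le_mul_of_nonneg_left h3 hc.le
  refine h1.trans (key.trans ?_)
  have h4 : (Good (6 * X) 0 2 δ (fun _ => ∅)).card ≤ (Kf X).card := by
    apply card_le_card_of_injOn (fun n => (n + 1) / 6)
    · intro n hn
      rw [mem_coe] at hn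
      obtain ⟨⟨h5, h6⟩, h7, h8, h9⟩ := mem_Good2 hn
      have hmod : n % 6 = 5 := by
        have m2 : n % 2 ≠ 0 := by
          intro h0
          have : 2 = n := (Nat.prime_dvd_prime_iff_eq Nat.prime_two h7).1 (Nat.dvd_of_mod_eq_zero h0)
          omega
        have m3 : n % 3 ≠ 0 := by
          intro h0
          have : 3 = n := (Nat.prime_dvd_prime_iff_eq Nat.prime_three h7).1 (Nat.dvd_of_mod_eq_zero h0)
          omega
        have m31 : n % 3 ≠ 1 := by
          intro h0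
          have h10 : 3 ∣ n + 2 := by omega
          have h11 := h9 3 Nat.prime_three h10
          have h12 := pow_ten (X := 6 * X) (q := 6 * X) (p := 3) (by omega) (by omega) h11
          have : (3 : ℕ) ^ 10 < 2 ^ 18 := by norm_num
          omega
        omega
      show (n + 1) / 6 ∈ (Kf X : Set ℕ)
      rw [mem_coe, mem_Kf]
      have e1 : 6 * ((n + 1) / 6) - 1 = n := by omega
      have e2 : 6 * ((n + 1) / 6) + 1 = n + 2 := by omega
      rw [e1, e2]
      exact ⟨by omega, h7, h8, h9⟩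
    · intro a ha b hb hab
      rw [mem_coe] at ha hb
      have hA := mem_Good2 ha
      have hB := mem_Good2 hb
      have hmod : ∀ n ∈ Good (6 * X) 0 2 δ (fun _ => ∅), n % 6 = 5 := by
        intro n hn
        obtain ⟨⟨h5, h6⟩, h7, h8, h9⟩ := mem_Good2 hn
        have m2 : n % 2 ≠ 0 := by
          intro h0
          have : 2 = n := (Nat.prime_dvd_prime_iff_eq Nat.prime_two h7).1 (Nat.dvd_of_mod_eq_zero h0)
          omega
        have m3 : n % 3 ≠ 0 := by
          intro h0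
          have : 3 = n := (Nat.prime_dvd_prime_iff_eq Nat.prime_three h7).1 (Nat.dvd_of_mod_eq_zero h0)
          omega
        have m31 : n % 3 ≠ 1 := by
          intro h0
          have h10 : 3 ∣ n + 2 := by omega
          have h11 := h9 3 Nat.prime_three h10
          have h12 := pow_ten (X := 6 * X) (q := 6 * X) (p := 3) (by omega) (by omega) h11
          have : (3 : ℕ) ^ 10 < 2 ^ 18 := by norm_num
          omega
        omega
      have h5 := hmod a ha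
      have h6 := hmod b hb
      have h7 : (a + 1) / 6 = (b + 1) / 6 := hab
      omega
  exact_mod_cast h4

theorem density : ∃ C₁ : ℝ, 0 < C₁ ∧ ∃ y0 : ℕ, ∀ y : ℕ, y0 ≤ y → ∃ S : Finset ℕ, S ⊆ Icc 1 y ∧
    (∀ a ∈ S, a ∈ {m : ℕ | ChenPrime (Nat.nth Nat.Prime (m - 1))}) ∧
    (y : ℝ) ≤ C₁ * #S * Real.log y := by
  classical
  obtain ⟨δ, c, X₀, hδ, hc, h⟩ := chen2
  obtain ⟨X₁, hX₁⟩ := pi_bounds 1 one_pos
  obtain ⟨N₆, hN₆⟩ := ev_log 32
  refine ⟨64 / c, by positivity, max (max X₀ X₁) (max N₆ (2 ^ 18)), fun y hy => ?_⟩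
  rw [max_le_iff, max_le_iff, max_le_iff] at hy
  obtain ⟨⟨hy0, hy1⟩, hy6, hy18⟩ := hy
  have hyr : (2 : ℝ) ^ 18 ≤ y := by exact_mod_cast hy18
  have hy9 : (16 : ℝ) ≤ y := by linarith [show (16 : ℝ) ≤ 2 ^ 18 by norm_num]
  have hl := hN₆ y hy6
  obtain ⟨X, hX⟩ : ∃ X : ℕ, X = ⌊y * Real.log y / 8⌋₊ := ⟨_, rfl⟩
  have hXle : (X : ℝ) ≤ y * Real.log y / 8 := by rw [hX]; exact Nat.floor_le (by positivity)
  have hXge : y * Real.log y / 16 ≤ X := by
    have h1 := Nat.lt_floor_add_one (y * Real.log y / 8)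
    rw [← hX] at h1
    have h2 : (16 : ℝ) ≤ y * Real.log y := by nlinarith
    linarith
  have hXy : (y : ℝ) ≤ X := by nlinarith
  have hXy' : y ≤ X := by exact_mod_cast hXy
  have key := h X (by omega)
  have hpi := (hX₁ (2 * X) (by omega)).2
  have hl2X : Real.log y ≤ Real.log ((2 * X : ℕ) : ℝ) := by
    apply Real.log_le_log (by linarith)
    push_cast
    linarith
  have hcount : Nat.primeCounting (2 * X) + 1 ≤ y := by
    have h1 : (1 + 1) * (((2 * X : ℕ) : ℝ) / Real.log ((2 * X : ℕ) : ℝ)) ≤ y / 2 := by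
      have h2 : ((2 * X : ℕ) : ℝ) / Real.log ((2 * X : ℕ) : ℝ) ≤ ((2 * X : ℕ) : ℝ) / Real.log y :=
        div_le_div_of_nonneg_left (by positivity) (by linarith) hl2X
      have h3 : ((2 * X : ℕ) : ℝ) / Real.log y ≤ y / 4 := by
        rw [div_le_iff₀ (by linarith)]
        push_cast
        linarith
      linarith
    have h4 : ((Nat.primeCounting (2 * X) + 1 : ℕ) : ℝ) ≤ y := by
      push_cast
      linarith
    exact_mod_cast h4
  obtain ⟨G, hG⟩ : ∃ G, G = Good X 0 2 δ (fun _ => ∅) := ⟨_, rfl⟩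
  rw [← hG] at key
  have hmem : ∀ q ∈ G, (X < q ∧ q ≤ 2 * X) ∧ q.Prime ∧ (q + 2).primeFactorsList.length ≤ 2 ∧
      ∀ p : ℕ, p.Prime → p ∣ q + 2 → (X : ℝ) ^ (1 / 9 : ℝ) ≤ p := by
    intro q hq
    rw [hG] at hq
    exact mem_Good2 hq
  have hnth : ∀ q ∈ G, Nat.nth Nat.Prime (Nat.count Nat.Prime q + 1 - 1) = q := by
    intro q hq
    rw [Nat.add_sub_cancel]
    exact Nat.nth_count (hmem q hq).2.1
  refine ⟨G.image (fun q => Nat.count Nat.Prime q + 1), ?_, ?_, ?_⟩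
  · intro a ha
    obtain ⟨q, hq, rfl⟩ := mem_image.1 ha
    obtain ⟨⟨-, h2⟩, -⟩ := hmem q hq
    rw [mem_Icc]
    have h3 : Nat.count Nat.Prime q ≤ Nat.primeCounting (2 * X) := by
      rw [Nat.primeCounting, Nat.primeCounting']
      exact Nat.count_monotone _ (by omega)
    omega
  · intro a ha
    obtain ⟨q, hq, rfl⟩ := mem_image.1 ha
    obtain ⟨⟨-, h2⟩, h3, h4, h5⟩ := hmem q hq
    show ChenPrime (Nat.nth Nat.Prime (Nat.count Nat.Prime q + 1 - 1))
    rw [hnth q hq]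
    exact ⟨h3, h4, fun p hp hd => pow_ten (by omega) h2 (h5 p hp hd)⟩
  · have hinj : Set.InjOn (fun q => Nat.count Nat.Prime q + 1) (G : Set ℕ) := by
      intro a ha b hb hab
      have h1 := hnth a ha
      have h2 := hnth b hb
      simp only at hab
      rw [hab] at h1
      exact h1.symm.trans h2
    rw [card_image_of_injOn hinj]
    have hX0 : (0 : ℝ) < X := by linarith
    have hly0 : 0 < Real.log y := by linarith
    have hlX : Real.log X ≤ 2 * Real.log y := by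
      have h1 : Real.log X ≤ Real.log (y * y) := by
        apply Real.log_le_log hX0
        have h2 : Real.log y ≤ y := by
          have := Real.log_le_sub_one_of_pos (by linarith : (0 : ℝ) < y)
          linarith
        nlinarith
      rw [Real.log_mul (by linarith) (by linarith)] at h1
      linarith
    have hlX0 : 0 < Real.log X := Real.log_pos (by linarith)
    have h1 : c * ((y * Real.log y / 16) / (2 * Real.log y) ^ 2) ≤ #G := by
      refine le_trans ?_ key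
      apply mul_le_mul_of_nonneg_left _ hc.le
      apply div_le_div₀ hX0.le hXge (by positivity)
      exact pow_le_pow_left₀ hlX0.le hlX 2
    calc (y : ℝ) = 64 / c * (c * ((y * Real.log y / 16) / (2 * Real.log y) ^ 2)) * Real.log y := by
          field_simp
          ring
      _ ≤ 64 / c * #G * Real.log y := by gcongr

/-- **Theorem.** There are `c > 0`, `A` and `X₀` such that for all `X ≥ X₀` at least
`c X / (log log log log X)²` of the integers `n` with `X < n ≤ 3 X` have a decomposition `n = k + m`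
with `k, m ≥ 1` and `m ≤ A (log X)² log log X` in which `6 k - 1` and `p_m` are both prime and each of
`6 k + 1` and `p_m + 2` is a prime or a product of two (large) primes. -/
theorem result : ∃ c A : ℝ, 0 < c ∧ ∃ X₀ : ℕ, ∀ X : ℕ, X₀ ≤ X →
    c * X / Real.log (Real.log (Real.log (Real.log X))) ^ 2 ≤
      (Set.ncard {n : ℕ | X < n ∧ n ≤ 3 * X ∧ ∃ k m : ℕ, 1 ≤ k ∧ 1 ≤ m ∧ k + m = n ∧
        (m : ℝ) ≤ A * (Real.log X ^ 2 * Real.log (Real.log X)) ∧
        ChenPrime (6 * k - 1) ∧ ChenPrime (Nat.nth Nat.Prime (m - 1))} : ℝ) := by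
  obtain ⟨r0, hr0, hrom⟩ := romanoff2
  obtain ⟨κ, hκ, hmany⟩ := Kf_many
  obtain ⟨C₁, hC₁, hdens⟩ := density
  obtain ⟨c, hc, A, X₀, hX₀⟩ := hrom (max r0 9) (le_max_left _ _) Kf κ hκ
    (Kf_almost (max r0 9) (le_max_right _ _)) hmany
    {m : ℕ | ChenPrime (Nat.nth Nat.Prime (m - 1))} C₁ hC₁ hdens
  refine ⟨c, A, hc, max X₀ (2 ^ 18), fun X hX => ?_⟩
  obtain ⟨I, hI1, hI2, hI3⟩ := hX₀ X ((le_max_left _ _).trans hX)
  have hX18 : 2 ^ 18 ≤ X := (le_max_right _ _).trans hX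
  refine hI3.trans ?_
  have hfin : {n : ℕ | X < n ∧ n ≤ 3 * X ∧ ∃ k m : ℕ, 1 ≤ k ∧ 1 ≤ m ∧ k + m = n ∧
        (m : ℝ) ≤ A * (Real.log X ^ 2 * Real.log (Real.log X)) ∧
        ChenPrime (6 * k - 1) ∧ ChenPrime (Nat.nth Nat.Prime (m - 1))}.Finite :=
    (Set.finite_Iic (3 * X)).subset (fun n hn => hn.2.1)
  have hsub : (I : Set ℕ) ⊆ {n : ℕ | X < n ∧ n ≤ 3 * X ∧ ∃ k m : ℕ, 1 ≤ k ∧ 1 ≤ m ∧ k + m = n ∧
        (m : ℝ) ≤ A * (Real.log X ^ 2 * Real.log (Real.log X)) ∧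
        ChenPrime (6 * k - 1) ∧ ChenPrime (Nat.nth Nat.Prime (m - 1))} := by
    intro n hn
    have h3 := mem_Ioc.1 (hI1 hn)
    obtain ⟨k, m, hkm, hmM, hm1, hmL, hk⟩ := hI2 n hn
    rw [mem_Kf] at hk
    obtain ⟨⟨hk1, hk2⟩, h5, h6, h7⟩ := hk
    have e : 6 * k - 1 + 2 = 6 * k + 1 := by omega
    refine ⟨h3.1, h3.2, k, m, by omega, hm1, hkm, hmL, ⟨h5, ?_, ?_⟩, hmM⟩
    · rw [e]
      exact h6
    · intro p hp hd
      rw [e] at hd
      exact pow_ten (X := 6 * X) (by omega) (by omega) (h7 p hp hd)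
  have h5 := Set.ncard_le_ncard hsub hfin
  rw [Set.ncard_coe_finset] at h5
  exact_mod_cast h5

end Pool.Agent.Results.MP_ea8352_nt.ChenDecompositions
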